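import Pool.Agent.Helper45.PQ.StK

/-!
# Project PQ, module OWK: ovoid points in a subspace
-/

set_option autoImplicit false

open Module Classical
open scoped LinearAlgebra.Projectivization

namespace Pool.Agent.Helper30.PQ

open Pool.Agent.Helper45.PQ

universe u v

/-- Ovoid points in a subspace. -/
theorem hOWK : StOWK.{u, v} := by
  intro F _ _ V _ _ _ _ Q O hO W k hk hlin
  have hfs : Finite (Submodule F V) := Finite.of_injective (fun W : Submodule F V => (W : Set V))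
    SetLike.coe_injective
  have hft : Fintype (Submodule F V) := Fintype.ofFinite _
  obtain ⟨Λ, hΛ⟩ : ∃ Λ : Finset (Submodule F V), Λ = Finset.univ.filter
      (fun l => l ≤ W ∧ finrank F l = 2 ∧ ∀ x ∈ l, Q x = 0) := ⟨_, rfl⟩
  have hmem : ∀ l, l ∈ Λ ↔ l ≤ W ∧ finrank F l = 2 ∧ ∀ x ∈ l, Q x = 0 := by
    intro l
    rw [hΛ, Finset.mem_filter, and_iff_right (Finset.mem_univ _)]
  -- number of lines through a point
  have h1 : ∀ z ∈ sp Q W, (Λ.filter (fun l => z.rep ∈ l)).card = k := by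
    intro z hz
    rw [← hlin z hz, ← Set.ncard_coe_finset]
    congr 1
    ext l
    rw [Finset.mem_coe, Finset.mem_filter, hmem]
    constructor
    · rintro ⟨⟨h1, h2, h3⟩, h4⟩
      exact ⟨h1, h4, h2, h3⟩
    · rintro ⟨h1, h4, h2, h3⟩
      exact ⟨⟨h1, h2, h3⟩, h4⟩
  -- number of points on a line
  have h2 : ∀ l ∈ Λ, ((sp Q W).filter (fun z => z.rep ∈ l)).card = Nat.card F + 1 := by
    intro l hl
    obtain ⟨ha, hb, hc⟩ := (hmem l).1 hl
    have h3 : (sp Q W).filter (fun z => z.rep ∈ l) = Pool.Agent.Helper53.PB.pts l := by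
      ext z
      rw [Finset.mem_filter, mem_sp, Pool.Agent.Helper53.PB.mem_pts]
      exact ⟨fun h => h.2, fun h => ⟨⟨ha h, hc _ h⟩, h⟩⟩
    rw [h3, Pool.Agent.Helper53.PB.card_pts, hb, Pool.Agent.Helper53.PB.geo_two]
  have h3 : ∀ l ∈ Λ, ((O.filter (fun y => y.rep ∈ W)).filter (fun z => z.rep ∈ l)).card = 1 := by
    intro l hl
    obtain ⟨ha, hb, hc⟩ := (hmem l).1 hl
    obtain ⟨y, hy, huniq⟩ := hO.2 l hc hb
    rw [Finset.card_eq_one]
    refine ⟨y, ?_⟩
    ext z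
    rw [Finset.mem_filter, Finset.mem_filter, Finset.mem_singleton]
    constructor
    · rintro ⟨⟨h4, -⟩, h5⟩
      exact huniq z ⟨h4, h5⟩
    · rintro rfl
      exact ⟨⟨hy.1, ha hy.2⟩, hy.2⟩
  have e1 : ∑ z ∈ sp Q W, (Λ.filter (fun l => z.rep ∈ l)).card =
      ∑ l ∈ Λ, ((sp Q W).filter (fun z => z.rep ∈ l)).card :=
    Finset.sum_card_bipartiteAbove_eq_sum_card_bipartiteBelow
      (fun (z : ℙ F V) (l : Submodule F V) => z.rep ∈ l)
  have e2 : ∑ z ∈ O.filter (fun y => y.rep ∈ W), (Λ.filter (fun l => z.rep ∈ l)).card =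
      ∑ l ∈ Λ, ((O.filter (fun y => y.rep ∈ W)).filter (fun z => z.rep ∈ l)).card :=
    Finset.sum_card_bipartiteAbove_eq_sum_card_bipartiteBelow
      (fun (z : ℙ F V) (l : Submodule F V) => z.rep ∈ l)
  rw [Finset.sum_congr rfl h1, Finset.sum_congr rfl h2, Finset.sum_const, Finset.sum_const,
    smul_eq_mul, smul_eq_mul] at e1
  have h4 : ∀ z ∈ O.filter (fun y => y.rep ∈ W), (Λ.filter (fun l => z.rep ∈ l)).card = k := by
    intro z hz
    rw [Finset.mem_filter] at hz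
    exact h1 z (mem_sp.2 ⟨hz.2, hO.1 z hz.1⟩)
  rw [Finset.sum_congr rfl h4, Finset.sum_congr rfl h3, Finset.sum_const, Finset.sum_const,
    smul_eq_mul, smul_eq_mul, mul_one] at e2
  refine Nat.eq_of_mul_eq_mul_right hk ?_
  rw [e1, mul_assoc, e2, mul_comm]

end Pool.Agent.Helper30.PQ
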